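import Mathlib

/-!
MO39/AsyS82: the general case and the asymptotic bound, from the base case.
-/

set_option autoImplicit false

namespace Pool.Agent.MO39.AsyS82

open Filter Topology

/-- the normalised term -/
noncomputable def vv (r i t : ℕ) : ℝ := (((3 * t + r).choose (2 * t + i) : ℕ) : ℝ) *
    2 ^ (2 * t + i) * Real.sqrt ((3 * t + r : ℕ) : ℝ) / 3 ^ (3 * t + r)

theorem lin_ratio (c a b : ℝ) (hc : 0 < c) :
    Tendsto (fun t : ℕ => (c * (t : ℝ) + a) / (c * (t : ℝ) + b)) atTop (𝓝 1) := by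
  have h1 : Tendsto (fun t : ℕ => c * (t : ℝ) + b) atTop atTop :=
    tendsto_atTop_add_const_right _ _ ((tendsto_natCast_atTop_atTop).const_mul_atTop hc)
  have h2 : Tendsto (fun t : ℕ => 1 + (a - b) / (c * (t : ℝ) + b)) atTop (𝓝 (1 + 0)) :=
    tendsto_const_nhds.add (tendsto_const_nhds.div_atTop h1)
  rw [add_zero] at h2
  refine h2.congr' ?_
  filter_upwards [h1.eventually_gt_atTop 0] with t ht
  have := ht.ne'
  field_simp
  ring

theorem step_r {L : ℝ} {r i : ℕ} (h : Tendsto (vv r i) atTop (𝓝 L)) :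
    Tendsto (vv (r + 1) i) atTop (𝓝 L) := by
  have h1 := lin_ratio 3 (r + 1) (3 * (r + 1 - i)) (by norm_num)
  have h2 := (lin_ratio 3 (r + 1) r (by norm_num)).sqrt
  rw [Real.sqrt_one] at h2
  have h3 := (h.mul h1).mul h2
  rw [mul_one, mul_one] at h3
  refine h3.congr' ?_
  filter_upwards [eventually_ge_atTop (i + 1)] with t ht
  have ht' : ((i : ℝ) + 1) ≤ t := by exact_mod_cast ht
  have hr0 : (0 : ℝ) ≤ r := Nat.cast_nonneg _
  have hi0 : (0 : ℝ) ≤ i := Nat.cast_nonneg _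
  have ht0 : (0 : ℝ) < t := by linarith
  unfold vv
  have e1 : 3 * t + (r + 1) = 3 * t + r + 1 := by ring
  rw [e1]
  have hle : 2 * t + i ≤ 3 * t + r := by omega
  have e2 : (((3 * t + r + 1).choose (2 * t + i) : ℕ) : ℝ) * ((t : ℝ) + r + 1 - i) =
      (((3 * t + r).choose (2 * t + i) : ℕ) : ℝ) * (3 * t + r + 1) := by
    have h4 := Nat.choose_mul_succ_eq (3 * t + r) (2 * t + i)
    have h5 : ((3 * t + r + 1 - (2 * t + i) : ℕ) : ℝ) = (t : ℝ) + r + 1 - i := by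
      rw [Nat.cast_sub (by omega)]
      push_cast
      ring
    have h6 : (((3 * t + r).choose (2 * t + i) * (3 * t + r + 1) : ℕ) : ℝ) =
        (((3 * t + r + 1).choose (2 * t + i) * (3 * t + r + 1 - (2 * t + i)) : ℕ) : ℝ) := by
      exact_mod_cast h4
    rw [Nat.cast_mul, Nat.cast_mul, h5] at h6
    rw [← h6]
    push_cast
    ring
  have hpos : (0 : ℝ) < (t : ℝ) + r + 1 - i := by linarith
  have hpos2 : (0 : ℝ) < 3 * (t : ℝ) + r := by linarith
  have e3 : (((3 * t + r + 1).choose (2 * t + i) : ℕ) : ℝ) =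
      (((3 * t + r).choose (2 * t + i) : ℕ) : ℝ) * (3 * t + r + 1) / ((t : ℝ) + r + 1 - i) := by
    rw [eq_div_iff hpos.ne']
    exact e2
  have e4 : Real.sqrt ((3 * t + r + 1 : ℕ) : ℝ) = Real.sqrt ((3 * t + r : ℕ) : ℝ) *
      Real.sqrt ((3 * (t : ℝ) + (r + 1)) / (3 * (t : ℝ) + r)) := by
    rw [← Real.sqrt_mul (by positivity)]
    congr 1
    push_cast
    field_simp
    ring
  rw [e3, e4, pow_succ 3]
  have hpos3 : (0 : ℝ) < 3 * (t : ℝ) + 3 * (r + 1 - i) := by linarith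
  have e5 : 3 * (t : ℝ) + 3 * (r + 1 - i) = 3 * ((t : ℝ) + r + 1 - i) := by ring
  rw [e5]
  have h3' : (3 : ℝ) ^ (3 * t + r) ≠ 0 := by positivity
  field_simp
  ring

theorem step_i {L : ℝ} {r i : ℕ} (h : Tendsto (vv r i) atTop (𝓝 L)) :
    Tendsto (vv r (i + 1)) atTop (𝓝 L) := by
  have h1 := lin_ratio 2 (2 * (r - i)) (i + 1) (by norm_num)
  have h3 := h.mul h1
  rw [mul_one] at h3
  refine h3.congr' ?_
  filter_upwards [eventually_ge_atTop (i + 1)] with t ht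
  have ht' : ((i : ℝ) + 1) ≤ t := by exact_mod_cast ht
  have hr0 : (0 : ℝ) ≤ r := Nat.cast_nonneg _
  have hi0 : (0 : ℝ) ≤ i := Nat.cast_nonneg _
  have ht0 : (0 : ℝ) < t := by linarith
  unfold vv
  have e1 : 2 * t + (i + 1) = 2 * t + i + 1 := by ring
  rw [e1]
  have e2 : (((3 * t + r).choose (2 * t + i + 1) : ℕ) : ℝ) * (2 * (t : ℝ) + (i + 1)) =
      (((3 * t + r).choose (2 * t + i) : ℕ) : ℝ) * ((t : ℝ) + r - i) := by
    have h4 := Nat.choose_succ_right_eq (3 * t + r) (2 * t + i)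
    have h5 : ((3 * t + r - (2 * t + i) : ℕ) : ℝ) = (t : ℝ) + r - i := by
      rw [Nat.cast_sub (by omega)]
      push_cast
      ring
    have h6 : (((3 * t + r).choose (2 * t + i + 1) * (2 * t + i + 1) : ℕ) : ℝ) =
        (((3 * t + r).choose (2 * t + i) * (3 * t + r - (2 * t + i)) : ℕ) : ℝ) := by
      exact_mod_cast h4
    rw [Nat.cast_mul, Nat.cast_mul, h5] at h6
    rw [← h6]
    push_cast
    ring
  have hpos : (0 : ℝ) < 2 * (t : ℝ) + (i + 1) := by linarith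
  have e3 : (((3 * t + r).choose (2 * t + i + 1) : ℕ) : ℝ) =
      (((3 * t + r).choose (2 * t + i) : ℕ) : ℝ) * ((t : ℝ) + r - i) / (2 * (t : ℝ) + (i + 1)) := by
    rw [eq_div_iff hpos.ne']
    exact e2
  rw [e3, pow_succ 2]
  have h3' : (3 : ℝ) ^ (3 * t + r) ≠ 0 := by positivity
  field_simp
  ring

theorem gen_of (hb : Tendsto (fun t : ℕ => (((3 * t).choose (2 * t) : ℕ) : ℝ) * 2 ^ (2 * t) *
    Real.sqrt ((3 * t : ℕ) : ℝ) / 3 ^ (3 * t)) atTop (𝓝 (3 / 2 / Real.sqrt Real.pi)))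
    (r i : ℕ) : Tendsto (fun t : ℕ => (((3 * t + r).choose (2 * t + i) : ℕ) : ℝ) *
    2 ^ (2 * t + i) * Real.sqrt ((3 * t + r : ℕ) : ℝ) / 3 ^ (3 * t + r)) atTop
    (𝓝 (3 / 2 / Real.sqrt Real.pi)) := by
  change Tendsto (vv r i) atTop _
  have h0 : Tendsto (vv 0 0) atTop (𝓝 (3 / 2 / Real.sqrt Real.pi)) := hb
  have h1 : Tendsto (vv 0 i) atTop (𝓝 (3 / 2 / Real.sqrt Real.pi)) := by
    induction i with
    | zero => exact h0
    | succ i ih => exact step_i ih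
  induction r with
  | zero => exact h1
  | succ r ih => exact step_r ih

theorem const_gt : (0.846 : ℝ) < 3 / 2 / Real.sqrt Real.pi := by
  rw [lt_div_iff₀ (Real.sqrt_pos.2 Real.pi_pos)]
  have h1 : Real.sqrt Real.pi < 1.773 := by
    rw [Real.sqrt_lt' (by norm_num)]
    have := Real.pi_lt_d4
    norm_num at this ⊢
    linarith
  linarith

theorem asy_of (hb : Tendsto (fun t : ℕ => (((3 * t).choose (2 * t) : ℕ) : ℝ) * 2 ^ (2 * t) *
    Real.sqrt ((3 * t : ℕ) : ℝ) / 3 ^ (3 * t)) atTop (𝓝 (3 / 2 / Real.sqrt Real.pi)))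
    (i : ℕ) : ∃ N : ℕ, ∀ n ≥ N, 0.846 * (3 : ℝ) ^ n / Real.sqrt (n : ℝ) ≤
    ((n.choose (2 * n / 3 + i) : ℕ) : ℝ) * 2 ^ (2 * n / 3 + i) := by
  have key : ∀ r j : ℕ, ∃ T : ℕ, ∀ t ≥ T, 0.846 * (3 : ℝ) ^ (3 * t + r) /
      Real.sqrt ((3 * t + r : ℕ) : ℝ) ≤
      (((3 * t + r).choose (2 * t + j) : ℕ) : ℝ) * 2 ^ (2 * t + j) := by
    intro r j
    have h1 := (gen_of hb r j).eventually (lt_mem_nhds const_gt)
    obtain ⟨T, hT⟩ := eventually_atTop.1 h1
    refine ⟨T + 1, fun t ht => ?_⟩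
    have h2 := hT t (by omega)
    have hs : 0 < Real.sqrt ((3 * t + r : ℕ) : ℝ) := by
      apply Real.sqrt_pos.2
      have : 0 < 3 * t + r := by omega
      exact_mod_cast this
    rw [lt_div_iff₀ (by positivity)] at h2
    rw [div_le_iff₀ hs]
    exact h2.le
  obtain ⟨T0, h0⟩ := key 0 i
  obtain ⟨T1, h1⟩ := key 1 i
  obtain ⟨T2, h2⟩ := key 2 (i + 1)
  refine ⟨3 * (T0 + T1 + T2) + 3, fun n hn => ?_⟩
  obtain ⟨t, r, hr, rfl⟩ : ∃ t r : ℕ, r < 3 ∧ n = 3 * t + r :=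
    ⟨n / 3, n % 3, Nat.mod_lt _ (by norm_num), by omega⟩
  have ht : T0 + T1 + T2 ≤ t := by omega
  interval_cases r
  · have e : 2 * (3 * t + 0) / 3 + i = 2 * t + i := by omega
    rw [e]
    exact h0 t (by omega)
  · have e : 2 * (3 * t + 1) / 3 + i = 2 * t + i := by omega
    rw [e]
    exact h1 t (by omega)
  · have e : 2 * (3 * t + 2) / 3 + i = 2 * t + (i + 1) := by omega
    rw [e]
    exact h2 t (by omega)

end Pool.Agent.MO39.AsyS82
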