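import Mathlib
import Pool.Agent.MO39.AsyS82

/-!
Stub. C(n, l) 2^l √n / 3^n → 3 / (2 √π) = 0.84628... for l = ⌊2n/3⌋ + i, i fixed.

Proof. v_{r,i}(t) = C(3t+r, 2t+i) 2^(2t+i) √(3t+r) / 3^(3t+r).
* v_{0,0}: with s = Stirling.stirlingSeq (s n = n! / (√(2n) (n/e)^n), Stirling.tendsto_stirlingSeq_sqrt_pi),
  v_{0,0}(t) = (3/2) s(3t) / (s(2t) s(t)) → (3/2) / √π.
* v_{r+1,i}(t) = v_{r,i}(t) ((3t+r+1) / (3 (t+r+1-i))) √((3t+r+1)/(3t+r)) for t ≥ i + 1, both factors → 1.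
* v_{r,i+1}(t) = v_{r,i}(t) (2 (t+r-i) / (2t+i+1)) for t ≥ i + 1, factor → 1.
Then n = 3t + r with r = n % 3, 2n/3 = 2t for r = 0, 1 and 2t + 1 for r = 2.
-/

set_option autoImplicit false

namespace Pool.Agent.MO39.Asy

open Filter Topology

/-- base case -/
theorem base : Tendsto (fun t : ℕ => (((3 * t).choose (2 * t) : ℕ) : ℝ) * 2 ^ (2 * t) *
    Real.sqrt ((3 * t : ℕ) : ℝ) / 3 ^ (3 * t)) atTop (𝓝 (3 / 2 / Real.sqrt Real.pi)) := by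
  sorry

theorem gen (r i : ℕ) : Tendsto (fun t : ℕ => (((3 * t + r).choose (2 * t + i) : ℕ) : ℝ) *
    2 ^ (2 * t + i) * Real.sqrt ((3 * t + r : ℕ) : ℝ) / 3 ^ (3 * t + r)) atTop
    (𝓝 (3 / 2 / Real.sqrt Real.pi)) := by
  exact AsyS82.gen_of base r i

theorem asy (i : ℕ) : ∃ N : ℕ, ∀ n ≥ N, 0.846 * (3 : ℝ) ^ n / Real.sqrt (n : ℝ) ≤
    ((n.choose (2 * n / 3 + i) : ℕ) : ℝ) * 2 ^ (2 * n / 3 + i) := by
  exact AsyS82.asy_of base i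

end Pool.Agent.MO39.Asy
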