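import Mathlib

/-!
Stub. Averaging over random codes. V a finite set, C a random subset, every element taken with
probability p independently: weight w(C) = ∏_{v ∈ C} p ∏_{v ∉ C} (1 - p).

`weight`: for A ⊆ S the sum of w(C) over the C with C ∩ S = A is p^|A| (1-p)^(|S|-|A|):
Finset.prod_add (or Finset.prod_add for univ: ∏ (f v + g v) = Σ_{C ∈ powerset univ} ∏_{C} f ∏_{univ \ C} g)
with f v = if v ∈ S then (if v ∈ A then p else 0) else p,
g v = if v ∈ S then (if v ∈ A then 0 else 1 - p) else 1 - p.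

`avg`: the average of the right-hand side is
Σ_{x ∈ X0} P(|C ∩ B x| ≤ 1) + Σ_{x ∈ X1} P(|C ∩ B x| = 1), with
P(|C ∩ S| = 0) = (1-p)^|S|, P(|C ∩ S| = 1) = |S| p (1-p)^(|S|-1) ≥ |S| p (1-p)^|S|.
-/

set_option autoImplicit false

namespace Pool.Agent.MO39.Avg

open Finset

theorem weight {V : Type*} [Fintype V] [DecidableEq V] (p : ℝ) (S A : Finset V) (hA : A ⊆ S) :
    ∑ C : Finset V, (if C ∩ S = A then p ^ C.card * (1 - p) ^ (Fintype.card V - C.card) else 0) =
      p ^ A.card * (1 - p) ^ (S.card - A.card) := by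
  sorry

theorem avg {V ι : Type*} [Fintype V] [DecidableEq V] [DecidableEq ι] (p : ℝ) (hp0 : 0 ≤ p)
    (hp1 : p ≤ 1) (X0 X1 : Finset ι) (B : ι → Finset V) :
    ∃ C : Finset V,
      ∑ x ∈ X0, (1 - p) ^ (B x).card * (1 + (B x).card * p) +
        ∑ x ∈ X1, (1 - p) ^ (B x).card * ((B x).card * p) ≤
      (((X0.filter fun x => (C ∩ B x).card ≤ 1).card : ℕ) : ℝ) +
        (((X1.filter fun x => (C ∩ B x).card = 1).card : ℕ) : ℝ) := by
  sorry

end Pool.Agent.MO39.Avg
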