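import Mathlib

/-!
Averaging over random codes (proofs for MO39/Avg).
-/

set_option autoImplicit false

namespace Pool.Agent.MO39.AvgS

open Finset

theorem weight {V : Type*} [Fintype V] [DecidableEq V] (p : ℝ) (S A : Finset V) (hA : A ⊆ S) :
    ∑ C : Finset V, (if C ∩ S = A then p ^ C.card * (1 - p) ^ (Fintype.card V - C.card) else 0) =
      p ^ A.card * (1 - p) ^ (S.card - A.card) := by
  classical
  set f : V → ℝ := fun v => if v ∈ S then (if v ∈ A then p else 0) else p with hf
  set g : V → ℝ := fun v => if v ∈ S then (if v ∈ A then 0 else 1 - p) else 1 - p with hg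
  have h1 : ∏ v : V, (f v + g v) = p ^ A.card * (1 - p) ^ (S.card - A.card) := by
    have e : ∀ v : V, f v + g v =
        (if v ∈ A then p else 1) * (if v ∈ S \ A then 1 - p else 1) := by
      intro v
      by_cases hS : v ∈ S
      · by_cases hv : v ∈ A
        · simp [hf, hg, hS, hv]
        · simp [hf, hg, hS, hv]
      · have hv : v ∉ A := fun h => hS (hA h)
        simp [hf, hg, hS, hv]
    rw [Finset.prod_congr rfl fun v _ => e v, Finset.prod_mul_distrib,
      Finset.prod_ite_mem, Finset.prod_ite_mem, Finset.univ_inter, Finset.univ_inter,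
      Finset.prod_const, Finset.prod_const, Finset.card_sdiff_of_subset hA]
  rw [← h1, Finset.prod_add, Finset.powerset_univ]
  refine Finset.sum_congr rfl fun C _ => ?_
  by_cases hC : C ∩ S = A
  · rw [if_pos hC]
    have hf' : ∏ v ∈ C, f v = p ^ C.card := by
      rw [← Finset.prod_const]
      refine Finset.prod_congr rfl fun v hv => ?_
      by_cases hS : v ∈ S
      · have : v ∈ A := by rw [← hC]; exact Finset.mem_inter.2 ⟨hv, hS⟩
        simp [hf, hS, this]
      · simp [hf, hS]
    have hg' : ∏ v ∈ univ \ C, g v = (1 - p) ^ (Fintype.card V - C.card) := by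
      rw [← Finset.card_univ, ← Finset.card_sdiff_of_subset (Finset.subset_univ C),
        ← Finset.prod_const]
      refine Finset.prod_congr rfl fun v hv => ?_
      have hv' : v ∉ C := (Finset.mem_sdiff.1 hv).2
      have : v ∉ A := by
        rw [← hC]
        exact fun h => hv' (Finset.mem_inter.1 h).1
      by_cases hS : v ∈ S
      · simp [hg, hS, this]
      · simp [hg, hS]
    rw [hf', hg']
  · rw [if_neg hC]
    have : ∃ v, v ∈ S ∧ ((v ∈ C ∧ v ∉ A) ∨ (v ∉ C ∧ v ∈ A)) := by
      by_contra hcon
      push Not at hcon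
      apply hC
      ext v
      rw [Finset.mem_inter]
      constructor
      · rintro ⟨h1, h2⟩
        exact (hcon v h2).1 h1
      · intro h
        refine ⟨?_, hA h⟩
        by_contra h'
        exact (hcon v (hA h)).2 h' h
    obtain ⟨v, hvS, h | h⟩ := this
    · rw [Finset.prod_eq_zero h.1 (by simp [hf, hvS, h.2]), zero_mul]
    · rw [Finset.prod_eq_zero (i := v) (s := univ \ C) (f := g)
        (Finset.mem_sdiff.2 ⟨Finset.mem_univ v, h.1⟩) (by simp [hg, hvS, h.2]), mul_zero]

theorem prob_one {V : Type*} [Fintype V] [DecidableEq V] (p : ℝ) (S : Finset V) :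
    ∑ C : Finset V, (if (C ∩ S).card = 1 then
        p ^ C.card * (1 - p) ^ (Fintype.card V - C.card) else 0) =
      S.card * (p * (1 - p) ^ (S.card - 1)) := by
  classical
  have e : ∀ C : Finset V, (if (C ∩ S).card = 1 then
        p ^ C.card * (1 - p) ^ (Fintype.card V - C.card) else 0) =
      ∑ a ∈ S, (if C ∩ S = {a} then
        p ^ C.card * (1 - p) ^ (Fintype.card V - C.card) else 0) := by
    intro C
    by_cases h : (C ∩ S).card = 1
    · rw [if_pos h]
      obtain ⟨b, hb⟩ := Finset.card_eq_one.1 h
      have hbS : b ∈ S := by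
        have : b ∈ C ∩ S := by rw [hb]; exact Finset.mem_singleton_self b
        exact (Finset.mem_inter.1 this).2
      rw [Finset.sum_eq_single_of_mem b hbS]
      · rw [if_pos hb]
      · intro a _ hab
        rw [if_neg]
        intro ha
        rw [hb] at ha
        exact hab (Finset.singleton_injective ha).symm
    · rw [if_neg h]
      symm
      apply Finset.sum_eq_zero
      intro a _
      rw [if_neg]
      intro ha
      apply h
      rw [ha, Finset.card_singleton]
  rw [Finset.sum_congr rfl fun C _ => e C, Finset.sum_comm]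
  rw [Finset.sum_congr rfl fun a ha =>
    weight p S {a} (Finset.singleton_subset_iff.2 ha)]
  simp

theorem prob_zero {V : Type*} [Fintype V] [DecidableEq V] (p : ℝ) (S : Finset V) :
    ∑ C : Finset V, (if (C ∩ S).card = 0 then
        p ^ C.card * (1 - p) ^ (Fintype.card V - C.card) else 0) =
      (1 - p) ^ S.card := by
  classical
  have := weight p S ∅ (Finset.empty_subset S)
  simp only [Finset.card_empty, pow_zero, one_mul, Nat.sub_zero] at this
  rw [← this]
  refine Finset.sum_congr rfl fun C _ => ?_
  simp only [Finset.card_eq_zero]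

theorem prob_le_one {V : Type*} [Fintype V] [DecidableEq V] (p : ℝ) (S : Finset V) :
    ∑ C : Finset V, (if (C ∩ S).card ≤ 1 then
        p ^ C.card * (1 - p) ^ (Fintype.card V - C.card) else 0) =
      (1 - p) ^ S.card + S.card * (p * (1 - p) ^ (S.card - 1)) := by
  rw [← prob_one p S, ← prob_zero p S, ← Finset.sum_add_distrib]
  refine Finset.sum_congr rfl fun C _ => ?_
  rcases Nat.lt_or_ge (C ∩ S).card 1 with h | h
  · have h0 : (C ∩ S).card = 0 := by omega
    rw [if_pos (by omega), if_pos h0, if_neg (by omega), add_zero]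
  · rcases Nat.lt_or_ge 1 (C ∩ S).card with h' | h'
    · rw [if_neg (by omega), if_neg (by omega), if_neg (by omega), add_zero]
    · have h1 : (C ∩ S).card = 1 := by omega
      rw [if_pos (by omega), if_neg (by omega), if_pos h1, zero_add]

theorem pow_bound (p : ℝ) (hp0 : 0 ≤ p) (hp1 : p ≤ 1) (n : ℕ) :
    (1 - p) ^ n * (n * p) ≤ n * (p * (1 - p) ^ (n - 1)) := by
  have h : (1 - p) ^ n ≤ (1 - p) ^ (n - 1) :=
    pow_le_pow_of_le_one (by linarith) (by linarith) (Nat.sub_le n 1)
  have h2 : 0 ≤ (n : ℝ) * p := by positivity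
  calc (1 - p) ^ n * (n * p) ≤ (1 - p) ^ (n - 1) * (n * p) := mul_le_mul_of_nonneg_right h h2
    _ = n * (p * (1 - p) ^ (n - 1)) := by ring

theorem avg {V ι : Type*} [Fintype V] [DecidableEq V] [DecidableEq ι] (p : ℝ) (hp0 : 0 ≤ p)
    (hp1 : p ≤ 1) (X0 X1 : Finset ι) (B : ι → Finset V) :
    ∃ C : Finset V,
      ∑ x ∈ X0, (1 - p) ^ (B x).card * (1 + (B x).card * p) +
        ∑ x ∈ X1, (1 - p) ^ (B x).card * ((B x).card * p) ≤
      (((X0.filter fun x => (C ∩ B x).card ≤ 1).card : ℕ) : ℝ) +
        (((X1.filter fun x => (C ∩ B x).card = 1).card : ℕ) : ℝ) := by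
  classical
  set w : Finset V → ℝ := fun C => p ^ C.card * (1 - p) ^ (Fintype.card V - C.card) with hw
  have hw0 : ∀ C, 0 ≤ w C := fun C => mul_nonneg (pow_nonneg hp0 _) (pow_nonneg (by linarith) _)
  have hw1 : ∑ C : Finset V, w C = 1 := by
    have := prob_zero (V := V) p ∅
    simpa [hw] using this
  set L : ℝ := ∑ x ∈ X0, (1 - p) ^ (B x).card * (1 + (B x).card * p) +
        ∑ x ∈ X1, (1 - p) ^ (B x).card * ((B x).card * p) with hL
  set R : Finset V → ℝ := fun C => (((X0.filter fun x => (C ∩ B x).card ≤ 1).card : ℕ) : ℝ) +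
        (((X1.filter fun x => (C ∩ B x).card = 1).card : ℕ) : ℝ) with hR
  have hsum : L ≤ ∑ C : Finset V, w C * R C := by
    have e : ∑ C : Finset V, w C * R C =
        ∑ x ∈ X0, ∑ C : Finset V, (if (C ∩ B x).card ≤ 1 then w C else 0) +
        ∑ x ∈ X1, ∑ C : Finset V, (if (C ∩ B x).card = 1 then w C else 0) := by
      rw [Finset.sum_comm, Finset.sum_comm (s := X1), ← Finset.sum_add_distrib]
      refine Finset.sum_congr rfl fun C _ => ?_
      rw [hR]
      simp only
      rw [mul_add, ← Finset.sum_filter, ← Finset.sum_filter, Finset.sum_const, Finset.sum_const,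
        nsmul_eq_mul, nsmul_eq_mul]
      ring
    rw [e, hL]
    refine add_le_add (Finset.sum_le_sum fun x _ => ?_) (Finset.sum_le_sum fun x _ => ?_)
    · have h1 := prob_le_one p (B x)
      have h2 := pow_bound p hp0 hp1 (B x).card
      simp only [hw]
      rw [h1]
      calc (1 - p) ^ (B x).card * (1 + (B x).card * p)
          = (1 - p) ^ (B x).card + (1 - p) ^ (B x).card * ((B x).card * p) := by ring
        _ ≤ _ := by linarith
    · have h1 := prob_one p (B x)
      have h2 := pow_bound p hp0 hp1 (B x).card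
      simp only [hw]
      rw [h1]
      exact h2
  by_contra hcon
  push Not at hcon
  have hpos : 0 < ∑ C : Finset V, w C * (L - R C) := by
    refine Finset.sum_pos' (fun C _ => mul_nonneg (hw0 C) (by have := hcon C; linarith)) ?_
    by_contra hno
    push Not at hno
    have : ∑ C : Finset V, w C = 0 := by
      apply Finset.sum_eq_zero
      intro C _
      have h1 := hno C (Finset.mem_univ C)
      have h2 : 0 < L - R C := by have := hcon C; linarith
      have h3 : w C ≤ 0 := by
        by_contra h
        push Not at h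
        have := mul_pos h h2
        linarith
      exact le_antisymm h3 (hw0 C)
    rw [hw1] at this
    exact one_ne_zero this
  have : ∑ C : Finset V, w C * (L - R C) = L - ∑ C : Finset V, w C * R C := by
    simp only [mul_sub, Finset.sum_sub_distrib, ← Finset.sum_mul, hw1, one_mul]
  rw [this] at hpos
  linarith

end Pool.Agent.MO39.AvgS
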