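import Mathlib

/-!
MP_e032b8_co, k = 3: f_3(n) ≥ 1.78 · 3^n / √n for all large n (note 3611).

Value 1 of a coordinate is the middle value, 0 and 2 are the two signs.
-/

set_option autoImplicit false

namespace Pool.Agent.MO39.Def

open Finset

/-- number of coordinates different from the middle value 1 -/
def lev {n : ℕ} (x : Fin n → Fin 3) : ℕ := (univ.filter fun i => x i ≠ 1).card

/-- the sum of the numbers x_i - 1 -/
def s {n : ℕ} (x : Fin n → Fin 3) : ℤ := ∑ i, (((x i : ℕ) : ℤ) - 1)

/-- the sign vectors that agree with x at the coordinates with value 0 or 2 -/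
def B {n : ℕ} (x : Fin n → Fin 3) : Finset (Fin n → Bool) :=
  univ.filter fun v => ∀ i, (x i = 0 → v i = false) ∧ (x i = 2 → v i = true)

/-- the points of class c and level l -/
def L {n : ℕ} (c : ℤ) (l : ℕ) : Finset (Fin n → Fin 3) :=
  univ.filter fun x => lev x = l ∧ s x % 3 = c

/-- x lies in the set given by the code D of class c: level m + 8 c + j with j < 8,
at most one code word in B x, and exactly one if j ≥ 2 -/
def Good {n : ℕ} (m : ℕ) (D : Finset (Fin n → Bool)) (c : ℕ) (x : Fin n → Fin 3) : Prop :=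
  ∃ j < 8, lev x = m + 8 * c + j ∧ s x % 3 = (c : ℤ) ∧
    (D ∩ B x).card ≤ 1 ∧ (2 ≤ j → (D ∩ B x).card = 1)

end Pool.Agent.MO39.Def
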