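import Mathlib
import Pool.Agent.MO39.Def

/-!
B x has 2^(n - lev x) elements: the free coordinates are those with value 1.
Proof: induction on n with Fin.consEquiv, or the product form: B x = Fintype.piFinset (fun i =>
if x i = 0 then {false} else if x i = 2 then {true} else univ), Fintype.card_piFinset, and the
product of the cards is 2 ^ #{i : x i = 1}; lev x + #{i : x i = 1} = n.
-/

set_option autoImplicit false

namespace Pool.Agent.MO39.Card

open Finset Pool.Agent.MO39.Def

/-- the possible values at a coordinate -/
def opt (a : Fin 3) : Finset Bool :=
  univ.filter fun b => (a = 0 → b = false) ∧ (a = 2 → b = true)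

theorem card_opt (a : Fin 3) : (opt a).card = if a = 1 then 2 else 1 := by
  fin_cases a <;> decide

theorem card_B {n : ℕ} (x : Fin n → Fin 3) : (B x).card = 2 ^ (n - lev x) := by
  have h1 : B x = Fintype.piFinset fun i => opt (x i) := by
    ext v
    rw [Fintype.mem_piFinset]
    constructor
    · intro h i
      exact mem_filter.2 ⟨mem_univ _, (mem_filter.1 h).2 i⟩
    · intro h
      exact mem_filter.2 ⟨mem_univ _, fun i => (mem_filter.1 (h i)).2⟩
  have h2 : n - lev x = (univ.filter fun i => x i = 1).card := by
    have h3 := card_filter_add_card_filter_not (s := (univ : Finset (Fin n))) (fun i => x i = 1)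
    rw [card_univ, Fintype.card_fin] at h3
    have h4 : (univ.filter fun i => ¬ x i = 1).card = lev x := rfl
    omega
  rw [h1, Fintype.card_piFinset, h2]
  rw [prod_congr rfl fun i _ => card_opt (x i), prod_ite, prod_const_one, mul_one, prod_const]

end Pool.Agent.MO39.Card
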