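import Mathlib
import Pool.Agent.MO39.Def

/-!
MO39/Cnt: proof of the count of the classes mod 3 of the levels.
For c = 0, 1, 2 put κ(0) = 2, κ(1) = κ(2) = -1. Then
3 #{x : lev x = l, s x ≡ c mod 3} = C(n, l) (2^l + (-1)^l κ(c)).
-/

set_option autoImplicit false

namespace Pool.Agent.MO39.CntS8

open Finset Pool.Agent.MO39.Def

theorem lev_cons {n : ℕ} (t : Fin 3) (y : Fin n → Fin 3) :
    lev (Fin.cons t y : Fin (n + 1) → Fin 3) = (if t ≠ 1 then 1 else 0) + lev y := by
  unfold lev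
  rw [card_filter, card_filter, Fin.sum_univ_succ]
  simp only [Fin.cons_zero, Fin.cons_succ]

theorem s_cons {n : ℕ} (t : Fin 3) (y : Fin n → Fin 3) :
    s (Fin.cons t y : Fin (n + 1) → Fin 3) = (((t : ℕ) : ℤ) - 1) + s y := by
  unfold s
  rw [Fin.sum_univ_succ]
  simp only [Fin.cons_zero, Fin.cons_succ]

theorem card_cons {n : ℕ} (P : (Fin (n + 1) → Fin 3) → Prop) [DecidablePred P] :
    (univ.filter P).card = (univ.filter fun y : Fin n → Fin 3 => P (Fin.cons 0 y)).card +
      (univ.filter fun y : Fin n → Fin 3 => P (Fin.cons 1 y)).card +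
      (univ.filter fun y : Fin n → Fin 3 => P (Fin.cons 2 y)).card := by
  rw [card_filter, card_filter, card_filter, card_filter]
  have h1 : ∑ x : Fin (n + 1) → Fin 3, (if P x then 1 else 0 : ℕ) =
      ∑ p : Fin 3 × (Fin n → Fin 3), (if P (Fin.cons p.1 p.2) then 1 else 0 : ℕ) :=
    (Fintype.sum_equiv (Fin.consEquiv (fun _ : Fin (n + 1) => Fin 3)) _ _ (fun p => rfl)).symm
  rw [h1, Fintype.sum_prod_type, Fin.sum_univ_three]

theorem rec_zero {n : ℕ} (c : ℤ) :
    (L (n := n + 1) c 0).card = (L (n := n) c 0).card := by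
  unfold L
  rw [card_cons]
  simp only [lev_cons, s_cons]
  simp

theorem rec_succ {n : ℕ} (c c1 c2 : ℤ) (l : ℕ) (h1 : ∀ z : ℤ, (z - 1) % 3 = c ↔ z % 3 = c1)
    (h2 : ∀ z : ℤ, (z + 1) % 3 = c ↔ z % 3 = c2) :
    (L (n := n + 1) c (l + 1)).card = (L (n := n) c1 l).card + (L (n := n) c (l + 1)).card +
      (L (n := n) c2 l).card := by
  unfold L
  rw [card_cons]
  simp only [lev_cons, s_cons]
  have e0 : (univ.filter fun y : Fin n → Fin 3 => (if (0 : Fin 3) ≠ 1 then 1 else 0) + lev y =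
      l + 1 ∧ ((((0 : Fin 3) : ℕ) : ℤ) - 1 + s y) % 3 = c) =
      univ.filter fun y : Fin n → Fin 3 => lev y = l ∧ s y % 3 = c1 := by
    ext y
    simp only [mem_filter, mem_univ, true_and]
    rw [if_pos (by decide), ← h1 (s y)]
    have : (((0 : Fin 3) : ℕ) : ℤ) - 1 + s y = s y - 1 := by simp; ring
    rw [this]
    constructor
    · rintro ⟨a, b⟩; exact ⟨by omega, b⟩
    · rintro ⟨a, b⟩; exact ⟨by omega, b⟩
  have e1 : (univ.filter fun y : Fin n → Fin 3 => (if (1 : Fin 3) ≠ 1 then 1 else 0) + lev y =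
      l + 1 ∧ ((((1 : Fin 3) : ℕ) : ℤ) - 1 + s y) % 3 = c) =
      univ.filter fun y : Fin n → Fin 3 => lev y = l + 1 ∧ s y % 3 = c := by
    ext y
    simp only [mem_filter, mem_univ, true_and]
    rw [if_neg (by simp), zero_add]
    have : (((1 : Fin 3) : ℕ) : ℤ) - 1 + s y = s y := by simp
    rw [this]
  have e2 : (univ.filter fun y : Fin n → Fin 3 => (if (2 : Fin 3) ≠ 1 then 1 else 0) + lev y =
      l + 1 ∧ ((((2 : Fin 3) : ℕ) : ℤ) - 1 + s y) % 3 = c) =
      univ.filter fun y : Fin n → Fin 3 => lev y = l ∧ s y % 3 = c2 := by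
    ext y
    simp only [mem_filter, mem_univ, true_and]
    rw [if_pos (by decide), ← h2 (s y)]
    have : (((2 : Fin 3) : ℕ) : ℤ) - 1 + s y = s y + 1 := by
      have h3 : ((2 : Fin 3) : ℕ) = 2 := rfl
      rw [h3]; push_cast; ring
    rw [this]
    constructor
    · rintro ⟨a, b⟩; exact ⟨by omega, b⟩
    · rintro ⟨a, b⟩; exact ⟨by omega, b⟩
  rw [e0, e1, e2]

theorem exact_cnt (n : ℕ) : ∀ l : ℕ,
    3 * ((L (n := n) 0 l).card : ℝ) = n.choose l * (2 ^ l + 2 * (-1) ^ l) ∧
    3 * ((L (n := n) 1 l).card : ℝ) = n.choose l * (2 ^ l - (-1) ^ l) ∧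
    3 * ((L (n := n) 2 l).card : ℝ) = n.choose l * (2 ^ l - (-1) ^ l) := by
  induction n with
  | zero =>
    intro l
    have hc : ∀ c : ℤ, (L (n := 0) c l).card = if l = 0 ∧ c = 0 then 1 else 0 := by
      intro c
      unfold L
      split_ifs with h
      · obtain ⟨rfl, rfl⟩ := h
        rw [card_eq_one]
        refine ⟨fun i => i.elim0, ?_⟩
        ext x
        simp only [mem_filter, mem_univ, true_and, mem_singleton]
        constructor
        · intro _
          funext i
          exact i.elim0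
        · rintro rfl
          simp [lev, s]
      · rw [card_eq_zero, filter_eq_empty_iff]
        intro x _ hx
        apply h
        have h1 : lev x = 0 := by simp [lev]
        have h2 : s x = 0 := by simp [s]
        rw [h1, h2] at hx
        exact ⟨hx.1.symm, by simpa using hx.2.symm⟩
    rw [hc, hc, hc]
    rcases l with _ | l
    · norm_num
    · simp
  | succ n ih =>
    intro l
    rcases l with _ | l
    · rw [rec_zero, rec_zero, rec_zero]
      have h := ih 0
      simpa using h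
    · obtain ⟨a0, a1, a2⟩ := ih l
      obtain ⟨b0, b1, b2⟩ := ih (l + 1)
      have r0 := rec_succ (n := n) 0 1 2 l (fun z => by omega) (fun z => by omega)
      have r1 := rec_succ (n := n) 1 2 0 l (fun z => by omega) (fun z => by omega)
      have r2 := rec_succ (n := n) 2 0 1 l (fun z => by omega) (fun z => by omega)
      rw [r0, r1, r2, Nat.choose_succ_succ]
      push_cast
      refine ⟨?_, ?_, ?_⟩
      · have e : 3 * (((L (n := n) 1 l).card : ℝ) + ((L (n := n) 0 (l + 1)).card : ℝ) +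
            ((L (n := n) 2 l).card : ℝ)) = 3 * ((L (n := n) 1 l).card : ℝ) +
            3 * ((L (n := n) 0 (l + 1)).card : ℝ) + 3 * ((L (n := n) 2 l).card : ℝ) := by ring
        rw [e, a1, a2, b0, pow_succ, pow_succ]
        ring
      · have e : 3 * (((L (n := n) 2 l).card : ℝ) + ((L (n := n) 1 (l + 1)).card : ℝ) +
            ((L (n := n) 0 l).card : ℝ)) = 3 * ((L (n := n) 2 l).card : ℝ) +
            3 * ((L (n := n) 1 (l + 1)).card : ℝ) + 3 * ((L (n := n) 0 l).card : ℝ) := by ring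
        rw [e, a2, a0, b1, pow_succ, pow_succ]
        ring
      · have e : 3 * (((L (n := n) 0 l).card : ℝ) + ((L (n := n) 2 (l + 1)).card : ℝ) +
            ((L (n := n) 1 l).card : ℝ)) = 3 * ((L (n := n) 0 l).card : ℝ) +
            3 * ((L (n := n) 2 (l + 1)).card : ℝ) + 3 * ((L (n := n) 1 l).card : ℝ) := by ring
        rw [e, a0, a1, b2, pow_succ, pow_succ]
        ring

theorem cnt (n l : ℕ) (c : ℕ) (hc : c < 3) :
    (n.choose l : ℝ) * (2 ^ l - 1 - 1) ≤ 3 * ((L (n := n) (c : ℤ) l).card : ℝ) := by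
  obtain ⟨a0, a1, a2⟩ := exact_cnt n l
  have hch : (0 : ℝ) ≤ n.choose l := Nat.cast_nonneg _
  have hp : (-1 : ℝ) ^ l = 1 ∨ (-1 : ℝ) ^ l = -1 := neg_one_pow_eq_or ℝ l
  have h1 : (-1 : ℝ) ≤ (-1) ^ l := by rcases hp with h | h <;> rw [h] <;> norm_num
  have h2 : ((-1 : ℝ)) ^ l ≤ 1 := by rcases hp with h | h <;> rw [h] <;> norm_num
  interval_cases c
  · push_cast
    rw [a0]
    exact mul_le_mul_of_nonneg_left (by linarith) hch
  · push_cast
    rw [a1]
    exact mul_le_mul_of_nonneg_left (by linarith) hch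
  · push_cast
    rw [a2]
    exact mul_le_mul_of_nonneg_left (by linarith) hch

end Pool.Agent.MO39.CntS8
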