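import Mathlib
import Pool.Agent.MO39.Def
import Pool.Agent.MO39.CntS8

/-!
Stub. For c = 0, 1, 2 put κ(0) = 2, κ(1) = κ(2) = -1. Then
3 #{x : lev x = l, s x ≡ c mod 3} = C(n, l) (2^l + (-1)^l κ(c)).
Induction on n with Fin.cons (first coordinate 0, 1 or 2): with a_c(n, l) the number,
a_c(n+1, 0) = a_c(n, 0) and a_c(n+1, l+1) = a_c(n, l+1) + a_{c-1}(n, l) + a_{c+1}(n, l)
(first coordinate 1: s and lev unchanged; 2: s + 1, lev + 1; 0: s - 1, lev + 1), and
κ(c-1) + κ(c+1) = - κ(c).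
Alternative proof for the lower bound only is also fine: only `cnt` is used.
-/

set_option autoImplicit false

namespace Pool.Agent.MO39.Cnt

open Finset Pool.Agent.MO39.Def

theorem cnt (n l : ℕ) (c : ℕ) (hc : c < 3) :
    (n.choose l : ℝ) * (2 ^ l - 1 - 1) ≤ 3 * ((L (n := n) (c : ℤ) l).card : ℝ) :=
  Pool.Agent.MO39.CntS8.cnt n l c hc

end Pool.Agent.MO39.Cnt
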