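import Pool.Agent.MO39.Line

/-!
# MO39/FreeS96: the set given by the three codes has no line (theorem `free` of `Line.lean`)
-/

set_option autoImplicit false

namespace Pool.Agent.MO39.FreeS96

open Finset Pool.Agent.MO39.Def Pool.Agent.MO39.Line

theorem free {n : ℕ} (m : ℕ) (C : ℕ → Finset (Fin n → Bool)) (x y z : Fin n → Fin 3)
    (h : ∀ i, ((x i : ℕ)) + (z i : ℕ) = 2 * (y i : ℕ)) (hne : ∃ i, x i ≠ y i)
    (hx : ∃ c < 3, Good m (C c) c x) (hy : ∃ c < 3, Good m (C c) c y)
    (hz : ∃ c < 3, Good m (C c) c z) : False := by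
  obtain ⟨c, hc, j, hj, hlx, hsx, _, hx2⟩ := hx
  obtain ⟨c', hc', j', hj', hly, hsy, hy1, _⟩ := hy
  obtain ⟨c'', hc'', j'', hj'', hlz, hsz, _, hz2⟩ := hz
  obtain ⟨hss, w, hw, hwx, hwz, hw1⟩ := lev_add x y z h hne
  have e1 : c'' = c := by omega
  subst e1
  have e2 : c' = c'' := by omega
  subst e2
  have hw2 : 2 ≤ w := by
    by_contra hcon
    have hw0 : w = 1 := by omega
    rcases hw1 hw0 with h1 | h1 <;> omega
  obtain ⟨b1, b2, b3⟩ := cube x y z h hne
  have cx := hx2 (by omega)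
  have cz := hz2 (by omega)
  have hsub : (C c' ∩ B x) ∪ (C c' ∩ B z) ⊆ C c' ∩ B y :=
    union_subset (inter_subset_inter_left b1) (inter_subset_inter_left b2)
  have hdis : Disjoint (C c' ∩ B x) (C c' ∩ B z) :=
    b3.mono inter_subset_right inter_subset_right
  have h3 := card_le_card hsub
  rw [card_union_of_disjoint hdis, cx, cz] at h3
  omega

end Pool.Agent.MO39.FreeS96
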