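import Mathlib
import Pool.Agent.MO39.Def

/-!
Stub. The geometric part.

`line3`: three points of {0,1,2}^n on a real line: proof of
Pool.Agent.Results.MP_e032b8_co.SideAtLeastFive.line_structure with k = 3 (copy it; there x, y, z
are the points Y 0, Y 1, Y 2 with value 0, 1, 2 at a moving coordinate; the affine relation gives
x_i + z_i = 2 y_i for every i).

`lev_add`: put W = {i : x i ≠ y i}. Outside W we have x = y = z, on W we have y = 1 and
{x i, z i} = {0, 2}; so lev x = lev z = lev y + |W|, and |W| = 1 gives s x = s y ± 1.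

`cube`: a vector v in B x satisfies the conditions of B y (y i = 0 or 2 implies x i = y i), and
no v is in B x and in B z, because at i ∈ W the two points have opposite signs.

`free`: the main statement of this file. Let x, y, z be Good of classes c, c', c''. x and z have
the same level, so c = c'' (8 c ≤ lev x - m < 8 (c + 1)). s x + s z = 2 s y gives 2 c ≡ 2 c' mod 3,
so c' = c. If |W| = 1 then s x = s y ± 1 is not ≡ s y mod 3, contradiction. So |W| ≥ 2, the index j
of x and z is at least 2, C c ∩ B x and C c ∩ B z have one element each, are disjoint subsets of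
C c ∩ B y, so that one has at least two elements, contradiction.
-/

set_option autoImplicit false

namespace Pool.Agent.MO39.Line

open Finset Pool.Agent.MO39.Def

theorem line3 {n : ℕ} (T : Finset (Fin n → Fin 3)) (hT : T.card = 3)
    (hc : Collinear ℝ ((fun (x : Fin n → Fin 3) (i : Fin n) => (((x i : ℕ)) : ℝ)) ''
      (T : Set (Fin n → Fin 3)))) :
    ∃ x ∈ T, ∃ y ∈ T, ∃ z ∈ T, (∀ i, ((x i : ℕ)) + (z i : ℕ) = 2 * (y i : ℕ)) ∧
      ∃ i, x i ≠ y i := by
  sorry

theorem lev_add {n : ℕ} (x y z : Fin n → Fin 3) (h : ∀ i, ((x i : ℕ)) + (z i : ℕ) = 2 * (y i : ℕ))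
    (hne : ∃ i, x i ≠ y i) :
    s x + s z = 2 * s y ∧ ∃ w, 1 ≤ w ∧ lev x = lev y + w ∧ lev z = lev y + w ∧
      (w = 1 → s x = s y + 1 ∨ s x = s y - 1) := by
  sorry

theorem cube {n : ℕ} (x y z : Fin n → Fin 3) (h : ∀ i, ((x i : ℕ)) + (z i : ℕ) = 2 * (y i : ℕ))
    (hne : ∃ i, x i ≠ y i) : B x ⊆ B y ∧ B z ⊆ B y ∧ Disjoint (B x) (B z) := by
  sorry

theorem free {n : ℕ} (m : ℕ) (C : ℕ → Finset (Fin n → Bool)) (x y z : Fin n → Fin 3)
    (h : ∀ i, ((x i : ℕ)) + (z i : ℕ) = 2 * (y i : ℕ)) (hne : ∃ i, x i ≠ y i)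
    (hx : ∃ c < 3, Good m (C c) c x) (hy : ∃ c < 3, Good m (C c) c y)
    (hz : ∃ c < 3, Good m (C c) c z) : False := by
  sorry

end Pool.Agent.MO39.Line
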