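import Mathlib

/-!
Stub. Numbers. With N = 2^(z+1) ≥ 4096: (1 - 1/N)^(N-1) = 1 / (1 + 1/(N-1))^(N-1) ≥ 1/e, so
(1 - 1/N)^N ≥ (1 - 1/4096) / 2.7182818286 > 0.3677. For j ≤ 7 the number t = (1 - 1/N)^(2^(z-j))
has t^(2^(j+1)) = (1 - 1/N)^N ≥ 0.3677 ≥ (a j)^(2^(j+1)).
-/

set_option autoImplicit false

namespace Pool.Agent.MO39.Num

open Finset

/-- lower bounds for exp(-2^(-j-1)) -/
def a (j : ℕ) : ℝ :=
  match j with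
  | 0 => 0.6063
  | 1 => 0.7786
  | 2 => 0.8823
  | 3 => 0.9392
  | 4 => 0.9691
  | 5 => 0.9844
  | 6 => 0.9921
  | _ => 0.9960

theorem pow_low (z j : ℕ) (hz : 12 ≤ z) (hj : j < 8) :
    a j ≤ (1 - (1 / 2 : ℝ) ^ (z + 1)) ^ (2 ^ (z - j)) := by
  sorry

theorem total : (2.1089 : ℝ) ≤ a 0 * (1 + 1 / 2) + a 1 * (1 + 1 / 4) +
    ∑ j ∈ Finset.Ico 2 8, a j * (1 / 2) ^ (j + 1) := by
  sorry

end Pool.Agent.MO39.Num
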