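import Mathlib
import Pool.Agent.MO39.Def
import Pool.Agent.MO39.Card
import Pool.Agent.MO39.Avg
import Pool.Agent.MO39.Num

/-!
`one_class` of MO39/Main (helper2).
-/

set_option autoImplicit false

namespace Pool.Agent.MO39.OneS2

open Finset Pool.Agent.MO39.Def

theorem mem_L {n : ℕ} {c : ℤ} {l : ℕ} {x : Fin n → Fin 3} :
    x ∈ L c l ↔ lev x = l ∧ s x % 3 = c := by
  unfold L
  rw [mem_filter]
  exact ⟨fun h => h.2, fun h => ⟨mem_univ _, h⟩⟩

theorem L_disj {n : ℕ} {c : ℤ} {i j : ℕ} (h : i ≠ j) : Disjoint (L (n := n) c i) (L c j) := by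
  rw [Finset.disjoint_left]
  intro x hx hy
  exact h ((mem_L.1 hx).1.symm.trans (mem_L.1 hy).1)

theorem wt {n m c j : ℕ} (hz : m + 8 * c + 12 ≤ n) (hj : j < 8) {x : Fin n → Fin 3}
    (hx : x ∈ L (n := n) (c : ℤ) (m + 8 * c + j)) :
    Num.a j ≤ (1 - (1 / 2 : ℝ) ^ (n - (m + 8 * c) + 1)) ^ (B x).card ∧
      ((B x).card : ℝ) * (1 / 2 : ℝ) ^ (n - (m + 8 * c) + 1) = (1 / 2 : ℝ) ^ (j + 1) := by
  have h1 : (B x).card = 2 ^ (n - (m + 8 * c) - j) := by
    rw [Card.card_B, (mem_L.1 hx).1, Nat.sub_add_eq n (m + 8 * c) j]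
  rw [h1]
  refine ⟨Num.pow_low _ _ (by omega) hj, ?_⟩
  have h2 : n - (m + 8 * c) + 1 = (n - (m + 8 * c) - j) + (j + 1) := by omega
  rw [h2, pow_add]
  push_cast
  rw [← mul_assoc, ← mul_pow]
  norm_num

open Classical in
theorem one_class (n m c : ℕ) (hz : m + 8 * c + 12 ≤ n) : ∃ D : Finset (Fin n → Bool),
    Num.a 0 * (1 + 1 / 2) * ((L (n := n) (c : ℤ) (m + 8 * c)).card : ℝ) +
      Num.a 1 * (1 + 1 / 4) * ((L (n := n) (c : ℤ) (m + 8 * c + 1)).card : ℝ) +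
      ∑ j ∈ Finset.Ico 2 8, Num.a j * (1 / 2) ^ (j + 1) *
        ((L (n := n) (c : ℤ) (m + 8 * c + j)).card : ℝ) ≤
    (((univ.filter fun x : Fin n → Fin 3 => Good m D c x).card : ℕ) : ℝ) := by
  have hp0 : (0 : ℝ) ≤ (1 / 2 : ℝ) ^ (n - (m + 8 * c) + 1) := by positivity
  have hp1 : (1 / 2 : ℝ) ^ (n - (m + 8 * c) + 1) ≤ 1 := pow_le_one₀ (by norm_num) (by norm_num)
  have hdis : ((Finset.Ico 2 8 : Finset ℕ) : Set ℕ).PairwiseDisjoint
      (fun j => L (n := n) (c : ℤ) (m + 8 * c + j)) := by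
    intro i _ j _ hij
    exact L_disj (by omega)
  obtain ⟨D, hD⟩ := Avg.avg (V := Fin n → Bool) (ι := Fin n → Fin 3)
    ((1 / 2 : ℝ) ^ (n - (m + 8 * c) + 1)) hp0 hp1
    (L (n := n) (c : ℤ) (m + 8 * c) ∪ L (n := n) (c : ℤ) (m + 8 * c + 1))
    ((Finset.Ico 2 8).biUnion fun j => L (n := n) (c : ℤ) (m + 8 * c + j)) B
  refine ⟨D, ?_⟩
  have hleft : Num.a 0 * (1 + 1 / 2) * ((L (n := n) (c : ℤ) (m + 8 * c)).card : ℝ) +
      Num.a 1 * (1 + 1 / 4) * ((L (n := n) (c : ℤ) (m + 8 * c + 1)).card : ℝ) +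
      ∑ j ∈ Finset.Ico 2 8, Num.a j * (1 / 2) ^ (j + 1) *
        ((L (n := n) (c : ℤ) (m + 8 * c + j)).card : ℝ) ≤
      ∑ x ∈ L (n := n) (c : ℤ) (m + 8 * c) ∪ L (n := n) (c : ℤ) (m + 8 * c + 1),
          (1 - (1 / 2 : ℝ) ^ (n - (m + 8 * c) + 1)) ^ (B x).card *
            (1 + (B x).card * (1 / 2 : ℝ) ^ (n - (m + 8 * c) + 1)) +
        ∑ x ∈ (Finset.Ico 2 8).biUnion fun j => L (n := n) (c : ℤ) (m + 8 * c + j),
          (1 - (1 / 2 : ℝ) ^ (n - (m + 8 * c) + 1)) ^ (B x).card *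
            ((B x).card * (1 / 2 : ℝ) ^ (n - (m + 8 * c) + 1)) := by
    rw [Finset.sum_union (L_disj (by omega)), Finset.sum_biUnion hdis]
    refine add_le_add (add_le_add ?_ ?_) ?_
    · rw [mul_comm, ← nsmul_eq_mul, ← Finset.sum_const]
      refine Finset.sum_le_sum fun x hx => ?_
      obtain ⟨h1, h2⟩ := wt (j := 0) hz (by norm_num) hx
      rw [h2]
      norm_num at h1 ⊢
      exact h1
    · rw [mul_comm, ← nsmul_eq_mul, ← Finset.sum_const]
      refine Finset.sum_le_sum fun x hx => ?_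
      obtain ⟨h1, h2⟩ := wt (j := 1) hz (by norm_num) hx
      rw [h2]
      have : (1 + (1 / 2 : ℝ) ^ (1 + 1)) = 1 + 1 / 4 := by norm_num
      rw [this]
      exact mul_le_mul_of_nonneg_right h1 (by norm_num)
    · refine Finset.sum_le_sum fun j hj => ?_
      rw [mul_comm, ← nsmul_eq_mul, ← Finset.sum_const]
      refine Finset.sum_le_sum fun x hx => ?_
      obtain ⟨h1, h2⟩ := wt (j := j) hz (Finset.mem_Ico.1 hj).2 hx
      rw [h2]
      exact mul_le_mul_of_nonneg_right h1 (by positivity)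
  refine hleft.trans (hD.trans ?_)
  have hdj : Disjoint
      ((L (n := n) (c : ℤ) (m + 8 * c) ∪ L (n := n) (c : ℤ) (m + 8 * c + 1)).filter
        fun x => (D ∩ B x).card ≤ 1)
      (((Finset.Ico 2 8).biUnion fun j => L (n := n) (c : ℤ) (m + 8 * c + j)).filter
        fun x => (D ∩ B x).card = 1) := by
    rw [Finset.disjoint_left]
    intro x hx hy
    rw [mem_filter, mem_union] at hx
    rw [mem_filter, mem_biUnion] at hy
    obtain ⟨⟨j, hj, hxj⟩, -⟩ := hy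
    have h2 := (Finset.mem_Ico.1 hj).1
    have h3 := (mem_L.1 hxj).1
    rcases hx.1 with h | h
    · have := (mem_L.1 h).1
      omega
    · have := (mem_L.1 h).1
      omega
  have hcard := Finset.card_union_of_disjoint hdj
  have hsub : ((L (n := n) (c : ℤ) (m + 8 * c) ∪ L (n := n) (c : ℤ) (m + 8 * c + 1)).filter
        fun x => (D ∩ B x).card ≤ 1) ∪
      (((Finset.Ico 2 8).biUnion fun j => L (n := n) (c : ℤ) (m + 8 * c + j)).filter
        fun x => (D ∩ B x).card = 1) ⊆ univ.filter fun x : Fin n → Fin 3 => Good m D c x := by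
    intro x hx
    rw [mem_filter]
    refine ⟨mem_univ _, ?_⟩
    rw [mem_union, mem_filter, mem_filter, mem_union, mem_biUnion] at hx
    rcases hx with ⟨h | h, h1⟩ | ⟨⟨j, hj, h⟩, h1⟩
    · exact ⟨0, by norm_num, (mem_L.1 h).1, (mem_L.1 h).2, h1, fun h' => absurd h' (by norm_num)⟩
    · exact ⟨1, by norm_num, (mem_L.1 h).1, (mem_L.1 h).2, h1, fun h' => absurd h' (by norm_num)⟩
    · exact ⟨j, (Finset.mem_Ico.1 hj).2, (mem_L.1 h).1, (mem_L.1 h).2, h1.le, fun _ => h1⟩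
  have := Finset.card_le_card hsub
  rw [hcard] at this
  exact_mod_cast this

end Pool.Agent.MO39.OneS2
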