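import Mathlib
import Pool.Agent.MO39.Def
import Pool.Agent.MO39.Line
import Pool.Agent.MO39.Card
import Pool.Agent.MO39.Cnt
import Pool.Agent.MO39.Avg
import Pool.Agent.MO39.Asy
import Pool.Agent.MO39.Num
import Pool.Agent.MO39.OneS2

/-!
Stub. Assembly.

`one_class`: Avg.avg with p = (1/2)^(z+1), z = n - (m + 8 c) ≥ 12, X0 = L c (m+8c) ∪ L c (m+8c+1)
(disjoint), X1 = the union over j = 2, ..., 7 of L c (m+8c+j), B = Def.B. For x in level m+8c+j,
|B x| = 2^(z-j) (Card.card_B), so |B x| p = (1/2)^(j+1), and (1-p)^|B x| ≥ a j (Num.pow_low).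
The points counted on the right are Good m C c.

`size`: for each c < 3 the code of one_class with m = 2n/3; the sets of the three classes are
disjoint (s x % 3 = c). Sum over c and j of (L c l).card * weight, with
3 |L c l| ≥ C(n,l) (2^l - 2) (Cnt.cnt) ≥ (C(n,l) 2^l) (1 - 2/2^l), C(n,l) 2^l ≥ 0.846 3^n/√n
(Asy.asy for i = 8 c + j < 24), 2/2^l ≤ 0.001 for l ≥ 11: |L c l| ≥ 0.8451 3^n / √n / 3, and
3 * (1/3) * 0.8451 * 2.1089 = 1.7822 > 1.78.
-/

set_option autoImplicit false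

namespace Pool.Agent.MO39.Main

open Finset Pool.Agent.MO39.Def

open Classical in
theorem one_class (n m c : ℕ) (hz : m + 8 * c + 12 ≤ n) : ∃ D : Finset (Fin n → Bool),
    Num.a 0 * (1 + 1 / 2) * ((L (n := n) (c : ℤ) (m + 8 * c)).card : ℝ) +
      Num.a 1 * (1 + 1 / 4) * ((L (n := n) (c : ℤ) (m + 8 * c + 1)).card : ℝ) +
      ∑ j ∈ Finset.Ico 2 8, Num.a j * (1 / 2) ^ (j + 1) *
        ((L (n := n) (c : ℤ) (m + 8 * c + j)).card : ℝ) ≤
    (((univ.filter fun x : Fin n → Fin 3 => Good m D c x).card : ℕ) : ℝ) :=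
  OneS2.one_class n m c hz

open Classical in
theorem size : ∃ N : ℕ, ∀ n ≥ N, ∃ C : ℕ → Finset (Fin n → Bool),
    1.78 * (3 : ℝ) ^ n / Real.sqrt (n : ℝ) ≤
      (((univ.filter fun x : Fin n → Fin 3 => ∃ c < 3, Good (2 * n / 3) (C c) c x).card : ℕ) : ℝ) := by
  sorry

theorem main : ∃ N : ℕ, ∀ n : ℕ, N ≤ n → ∃ S : Finset (Fin n → Fin 3),
    1.78 * (3 : ℝ) ^ n / Real.sqrt (n : ℝ) ≤ (S.card : ℝ) ∧
    ∀ T : Finset (Fin n → Fin 3), T ⊆ S → T.card = 3 →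
      ¬ Collinear ℝ ((fun (x : Fin n → Fin 3) (i : Fin n) => (((x i : ℕ)) : ℝ)) ''
          (T : Set (Fin n → Fin 3))) := by
  classical
  obtain ⟨N, hN⟩ := size
  refine ⟨N, fun n hn => ?_⟩
  obtain ⟨C, hC⟩ := hN n hn
  refine ⟨_, hC, ?_⟩
  intro T hTS hT hcol
  obtain ⟨x, hx, y, hy, z, hz, h, hne⟩ := Line.line3 T hT hcol
  refine Line.free (2 * n / 3) C x y z h hne ?_ ?_ ?_
  · simpa using hTS hx
  · simpa using hTS hy
  · simpa using hTS hz

end Pool.Agent.MO39.Main
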